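import Pool.Agent.Q27.VS.Final

/-!
# Finitely generated simple vigorous groups have infinite uniform spread
-/

set_option autoImplicit false

open Set

namespace Pool.Agent.Results.MP_e1f4dd_al.InfiniteUniformSpread

/-- Cantor space -/
abbrev Cantor : Type := ℕ → Bool

/-- Vigorous groups of homeomorphisms of Cantor space. -/
def Vigorous (G : Subgroup (Cantor ≃ₜ Cantor)) : Prop :=
  ∀ A B C : Set Cantor, IsClopen A → IsClopen B → IsClopen C → B.Nonempty → C.Nonempty →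
    B ⊂ A → C ⊂ A → ∃ γ ∈ G, γ '' B ⊆ C ∧ ∀ x, x ∉ A → γ x = x

/-- Some `σ` is such that for all nontrivial `α₁, …, α_k` there is a single conjugate `β` of `σ`
which generates the group together with each `α_i`. -/
def HasUniformSpread (Γ : Type) [Group Γ] (k : ℕ) : Prop :=
  ∃ σ : Γ, ∀ α : Fin k → Γ, (∀ i, α i ≠ 1) →
    ∃ β : Γ, IsConj σ β ∧ ∀ i, Subgroup.closure ({α i, β} : Set Γ) = ⊤

/-- The uniform spread: the supremum of the `k` with `HasUniformSpread Γ k`. -/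
noncomputable def uniformSpread (Γ : Type) [Group Γ] : ℕ∞ :=
  sSup {n : ℕ∞ | ∃ k : ℕ, n = k ∧ HasUniformSpread Γ k}

/-- **Theorem.** Every finitely generated simple vigorous group `G` of homeomorphisms of Cantor
space has infinite uniform spread. -/
theorem result (G : Subgroup (Cantor ≃ₜ Cantor)) (hV : Vigorous G) [IsSimpleGroup G]
    [Group.FG G] : uniformSpread G = ⊤ := by
  have hV' : Pool.Agent.Q27.VS.Vig G := by
    intro A B D hA hB hD hBA hDA hBn hDn hB' hD'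
    obtain ⟨γ, hγ, h1, h2⟩ := hV A B D hA hB hD hBn hDn (Set.ssubset_iff_subset_ne.2 ⟨hBA, hB'⟩)
      (Set.ssubset_iff_subset_ne.2 ⟨hDA, hD'⟩)
    exact ⟨γ, hγ, h1, h2⟩
  have hF : G.FG := (Group.fg_iff_subgroup_fg G).1 inferInstance
  have key : ∀ k, HasUniformSpread G k := by
    intro k
    obtain ⟨σ, hσ, h⟩ := Pool.Agent.Q27.VS.main Cantor G hV'
      (Pool.Agent.Q27.VS.simp_of_isSimpleGroup G) hF k
    refine ⟨⟨σ, hσ⟩, fun α hα => ?_⟩
    obtain ⟨g, hg, h1⟩ := h (fun i => (α i : Cantor ≃ₜ Cantor)) (fun i => (α i).2)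
      (fun i h2 => hα i (Subtype.ext h2))
    refine ⟨⟨g, hg⟩ * ⟨σ, hσ⟩ * ⟨g, hg⟩⁻¹, isConj_iff.2 ⟨⟨g, hg⟩, rfl⟩, fun i => ?_⟩
    apply Pool.Agent.Q27.VS.closure_top
    rw [image_pair]
    exact h1 i
  rw [uniformSpread, ENat.eq_top_iff_forall_ge]
  exact fun k => le_sSup ⟨k, rfl, key k⟩

end Pool.Agent.Results.MP_e1f4dd_al.InfiniteUniformSpread
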